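import Mathlib

namespace Pool.Agent.Results.MP_e403d1_gt.ClosedSubgroup

open Set Topology Filter

universe u

/-- `(1/n) U = {x : k x ∈ U for k = 1, …, n}`. -/
def divN {A : Type u} [AddCommGroup A] (n : ℕ) (U : Set A) : Set A :=
  {x | ∀ k : ℕ, 1 ≤ k → k ≤ n → k • x ∈ U}

/-- The topological group `A` (with its given topology) is minimal: it is Hausdorff, and no
Hausdorff group topology on `A` is strictly coarser.  (In Mathlib `t ≤ s` means that `t` is finer
than `s`.) -/
def IsMinimalGroup (A : Type u) [AddCommGroup A] [t : TopologicalSpace A] : Prop :=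
  T2Space A ∧ ∀ s : TopologicalSpace A, t ≤ s → @IsTopologicalAddGroup A s _ → @T2Space A s → s = t

/-- `A` is UFSS (uniformly free from small subgroups). -/
def IsUFSS (A : Type u) [AddCommGroup A] [TopologicalSpace A] : Prop :=
  T2Space A ∧ ∃ U ∈ 𝓝 (0 : A), (∀ x ∈ U, -x ∈ U) ∧
    (𝓝 (0 : A)).HasBasis (fun n : ℕ => 1 ≤ n) (fun n => divN n U)

/-- `A` is almost minimal. -/
def AlmostMinimal (A : Type u) [AddCommGroup A] [TopologicalSpace A] : Prop :=
  ∃ N : AddSubgroup A, IsClosed (N : Set A) ∧ IsMinimalGroup N ∧ IsUFSS (A ⧸ N)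

theorem minimal_aux {ι : Type*} {A B : Type u} [AddCommGroup A] [TopologicalSpace A]
    [AddCommGroup B] [TopologicalSpace B]
    [IsTopologicalAddGroup B] [T2Space B]
    (φ : A →+ (ι → ZMod 4)) (hφ : IsEmbedding φ)
    (hsoc : ∀ x : ι → ZMod 4, (∀ i, 2 * x i = 0) → x ∈ range φ)
    (e : A ≃+ B) (he : Continuous e) : Continuous (fun b : B => φ (e.symm b)) := by
  classical
  -- the socle
  let S : Set A := {a | ∀ i, 2 * φ a i = 0}
  have hScomp : IsCompact S := by
    have h1 : IsCompact {x : ι → ZMod 4 | ∀ i, 2 * x i = 0} := by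
      apply IsClosed.isCompact
      rw [ofPred_forall]
      exact isClosed_iInter fun i => isClosed_eq (by fun_prop) continuous_const
    have h2 : S = φ ⁻¹' {x : ι → ZMod 4 | ∀ i, 2 * x i = 0} := rfl
    rw [h2]
    exact hφ.isInducing.isCompact_preimage' h1 (fun x hx => hsoc x hx)
  have h4 : ∀ z : ZMod 4, 2 * (2 * z) = 0 := by decide
  have hφt : Continuous φ := hφ.continuous
  let ψ : B →+ (ι → ZMod 4) := φ.comp e.symm.toAddMonoidHom
  have hψ : ∀ b, ψ b = φ (e.symm b) := fun b => rfl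
  -- Step 1
  have step1 : ∀ F : Finset ι, ∃ V ∈ 𝓝 (0 : B), ∀ a ∈ V, (∀ i, 2 * ψ a i = 0) →
      ∀ i ∈ F, ψ a i = 0 := by
    intro F
    have hclosed : IsClosed {a : A | ∃ i ∈ F, φ a i ≠ 0} := by
      have : {a : A | ∃ i ∈ F, φ a i ≠ 0} = ⋃ i ∈ F, {a : A | φ a i ≠ 0} := by
        ext a; simp
      rw [this]
      refine isClosed_biUnion_finset fun i _ => ?_
      have h5 : Continuous (fun a => φ a i) := (continuous_apply i).comp hφt
      exact (isClosed_discrete {z : ZMod 4 | z ≠ 0}).preimage h5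
    have hc : IsCompact (S ∩ {a | ∃ i ∈ F, φ a i ≠ 0}) := hScomp.inter_right hclosed
    have hcs : IsCompact (e '' (S ∩ {a | ∃ i ∈ F, φ a i ≠ 0})) := hc.image he
    have hcl := hcs.isClosed
    refine ⟨(e '' (S ∩ {a | ∃ i ∈ F, φ a i ≠ 0}))ᶜ, ?_, ?_⟩
    · apply hcl.isOpen_compl.mem_nhds
      rintro ⟨a, ⟨-, i, -, hi⟩, ha0⟩
      have : a = 0 := by simpa using ha0
      subst this
      exact hi (by simp)
    · intro a ha haS i hi
      by_contra hne
      exact ha ⟨e.symm a, ⟨haS, i, hi, hne⟩, by simp⟩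
  -- Step 2
  have step2 : ∀ F : Finset ι, {a : B | ∀ i ∈ F, 2 * ψ a i = 0} ∈ 𝓝 (0 : B) := by
    intro F
    obtain ⟨V, hV, hVS⟩ := step1 F
    have hcont : Continuous (fun a : B => a + a) := by fun_prop
    have h7 : (fun a : B => a + a) ⁻¹' V ∈ 𝓝 (0 : B) := by
      have := hcont.continuousAt (x := (0 : B))
      exact this.preimage_mem_nhds (by simpa using hV)
    refine mem_of_superset h7 ?_
    intro a ha i hi
    have h8 : ψ (a + a) i = 0 := by
      refine hVS _ ha ?_ i hi
      intro j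
      have : ψ (a + a) j = 2 * ψ a j := by rw [map_add, Pi.add_apply]; ring
      rw [this]; exact h4 _
    have : ψ (a + a) i = 2 * ψ a i := by rw [map_add, Pi.add_apply]; ring
    rw [← this]; exact h8
  -- Step 3
  have step3 : ∀ i, {a : B | ψ a i = 0} ∈ 𝓝 (0 : B) := by
    intro i
    obtain ⟨V, hV, hVS⟩ := step1 {i}
    obtain ⟨V', hV', hVV⟩ : ∃ V' ∈ 𝓝 (0 : B), ∀ x ∈ V', ∀ y ∈ V', x - y ∈ V := by
      have h1 : (fun z : B × B => z.1 - z.2) ⁻¹' V ∈ 𝓝 ((0 : B), (0 : B)) := by
        have : ContinuousAt (fun z : B × B => z.1 - z.2) (0, 0) := by fun_prop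
        exact this.preimage_mem_nhds (by simpa using hV)
      rw [nhds_prod_eq, mem_prod_iff] at h1
      obtain ⟨t1, ht1, t2, ht2, h12⟩ := h1
      exact ⟨t1 ∩ t2, inter_mem ht1 ht2, fun x hx y hy => h12 (mk_mem_prod hx.1 hy.2)⟩
    have hV't : e ⁻¹' V' ∈ 𝓝 (0 : A) :=
      he.continuousAt.preimage_mem_nhds (by simpa using hV')
    have h0i : {a : A | φ a i = 0} ∈ 𝓝 (0 : A) := by
      have h5 : Continuous (fun a => φ a i) := (continuous_apply i).comp hφt
      have := (isOpen_discrete ({0} : Set (ZMod 4))).preimage h5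
      exact this.mem_nhds (by simp)
    have hint := inter_mem hV't h0i
    rw [hφ.isInducing.nhds_eq_comap, mem_comap] at hint
    obtain ⟨T, hT, hTsub⟩ := hint
    rw [map_zero, nhds_pi, Filter.mem_pi] at hT
    obtain ⟨F, hF, w, hw, hwT⟩ := hT
    refine mem_of_superset (inter_mem (step2 hF.toFinset) hV') ?_
    rintro a ⟨ha1, ha2⟩
    -- the correction term
    let x : ι → ZMod 4 := fun j => if j ∈ F then ψ a j else 0
    have hx : ∀ j, 2 * x j = 0 := by
      intro j
      by_cases hj : j ∈ F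
      · simp only [x, if_pos hj]
        exact ha1 j (hF.mem_toFinset.2 hj)
      · simp [x, hj]
    obtain ⟨k, hk⟩ := hsoc x hx
    have hak : e.symm a - k ∈ e ⁻¹' V' ∩ {a : A | φ a i = 0} := by
      apply hTsub
      show φ (e.symm a - k) ∈ T
      apply hwT
      intro j hj
      have : φ (e.symm a - k) j = 0 := by
        rw [map_sub, hk, Pi.sub_apply]
        simp [x, hj, hψ]
      rw [this]
      exact mem_of_mem_nhds (hw j)
    have hkV : e k ∈ V := by
      have := hVV a ha2 _ hak.1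
      simpa using this
    have hki : ψ (e k) i = 0 := by
      refine hVS (e k) hkV ?_ i (Finset.mem_singleton_self i)
      intro j
      rw [hψ, AddEquiv.symm_apply_apply, hk]
      exact hx j
    have haki : φ (e.symm a - k) i = 0 := hak.2
    show ψ a i = 0
    rw [hψ, AddEquiv.symm_apply_apply] at hki
    rw [map_sub, Pi.sub_apply, hki, sub_zero] at haki
    exact haki
  -- conclusion
  refine continuous_of_continuousAt_zero ψ ?_
  rw [ContinuousAt, map_zero, tendsto_pi_nhds]
  intro i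
  rw [Pi.zero_apply, nhds_discrete (ZMod 4), tendsto_pure]
  exact step3 i

/-- A topological group which embeds in a power of `ZMod 4`, with image containing the socle,
is minimal. -/
theorem minimal_of_socle {ι : Type*} {A : Type u} [AddCommGroup A] [t : TopologicalSpace A]
    (φ : A →+ (ι → ZMod 4)) (hφ : IsEmbedding φ)
    (hsoc : ∀ x : ι → ZMod 4, (∀ i, 2 * x i = 0) → x ∈ range φ) : IsMinimalGroup A := by
  refine ⟨hφ.t2Space, ?_⟩
  have h2 : t = TopologicalSpace.induced φ inferInstance := hφ.isInducing.eq_induced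
  intro s hts hsg hs2
  have hcont : @Continuous A (ι → ZMod 4) s _ φ :=
    @minimal_aux ι A A _ t _ s hsg hs2 φ hφ hsoc (AddEquiv.refl A) (continuous_id_iff_le.2 hts)
  have h1 : s ≤ TopologicalSpace.induced φ inferInstance :=
    continuous_iff_le_induced.1 hcont
  exact le_antisymm (h1.trans h2.ge) hts

/-- An injective continuous homomorphism from a minimal group to a Hausdorff group is inducing. -/
theorem IsMinimalGroup.inducing {A R : Type*} [AddCommGroup A] [t : TopologicalSpace A]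
    (hA : IsMinimalGroup A) [AddCommGroup R] [TopologicalSpace R] [IsTopologicalAddGroup R]
    [T2Space R] (Ψ : A →+ R) (hΨ : Continuous Ψ) (hinj : Function.Injective Ψ) : IsInducing Ψ := by
  have h1 : @IsTopologicalAddGroup A (TopologicalSpace.induced Ψ inferInstance) _ :=
    topologicalAddGroup_induced Ψ
  have h2 : @T2Space A (TopologicalSpace.induced Ψ inferInstance) := by
    letI : TopologicalSpace A := TopologicalSpace.induced Ψ inferInstance
    exact T2Space.of_injective_continuous hinj continuous_induced_dom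
  have h3 := hA.2 _ (continuous_iff_le_induced.1 hΨ) h1 h2
  exact ⟨h3.symm⟩

/-- Subgroups of normed spaces are UFSS. -/
theorem ufss_of_normed {E : Type u} [NormedAddCommGroup E] [NormedSpace ℝ E]
    (F : AddSubgroup E) : IsUFSS F := by
  refine ⟨inferInstance, {x : F | ‖(x : E)‖ < 1}, ?_, ?_, ?_⟩
  · exact (isOpen_lt (by fun_prop) continuous_const).mem_nhds (by simp)
  · intro x hx
    show ‖((-x : F) : E)‖ < 1
    rw [AddSubgroup.coe_neg, norm_neg]
    exact hx
  · constructor
    intro T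
    constructor
    · intro hT
      rw [Metric.mem_nhds_iff] at hT
      obtain ⟨ε, hε, hball⟩ := hT
      obtain ⟨n, hn⟩ := exists_nat_one_div_lt hε
      refine ⟨n + 1, by omega, ?_⟩
      intro x hx
      apply hball
      have h1 : ‖(((n + 1 : ℕ) • x : F) : E)‖ < 1 := hx (n + 1) (by omega) le_rfl
      rw [AddSubgroup.coe_nsmul, ← Nat.cast_smul_eq_nsmul ℝ, norm_smul] at h1
      rw [Metric.mem_ball, dist_zero_right]
      have h2 : ‖((n + 1 : ℕ) : ℝ)‖ = (n : ℝ) + 1 := by
        rw [Real.norm_natCast]; push_cast; ring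
      rw [h2] at h1
      have h3 : ‖x‖ = ‖(x : E)‖ := rfl
      rw [h3]
      refine lt_trans ?_ hn
      rw [lt_div_iff₀ (by positivity)]
      linarith
    · rintro ⟨n, hn, hT⟩
      have h0 : {x : F | ‖(x : E)‖ < 1 / (n : ℝ)} ∈ 𝓝 (0 : F) := by
        refine (isOpen_lt (by fun_prop) continuous_const).mem_nhds ?_
        show ‖((0 : F) : E)‖ < 1 / (n : ℝ)
        rw [ZeroMemClass.coe_zero, norm_zero]
        have : (0 : ℝ) < n := by exact_mod_cast hn
        positivity
      refine mem_of_superset h0 (Subset.trans ?_ hT)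
      intro x hx k hk1 hkn
      have hx' : ‖(x : E)‖ < 1 / (n : ℝ) := hx
      show ‖((k • x : F) : E)‖ < 1
      rw [AddSubgroup.coe_nsmul, ← Nat.cast_smul_eq_nsmul ℝ, norm_smul, Real.norm_natCast]
      have hn0 : (0 : ℝ) < n := by exact_mod_cast hn
      rw [lt_div_iff₀ hn0] at hx'
      have : (k : ℝ) ≤ n := by exact_mod_cast hkn
      have h5 := norm_nonneg (x : E)
      nlinarith

/-- Transfer of UFSS to the quotient by the kernel of an open surjection. -/
theorem ufss_quot {A B : Type u} [AddCommGroup A] [TopologicalSpace A] [IsTopologicalAddGroup A]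
    [AddCommGroup B] [TopologicalSpace B] (f : A →+ B) (hc : Continuous f) (ho : IsOpenMap f)
    (hs : Function.Surjective f) (hB : IsUFSS B) : IsUFSS (A ⧸ f.ker) := by
  let e : A ⧸ f.ker ≃+ B := QuotientAddGroup.quotientKerEquivOfSurjective f hs
  have he : ∀ a : A, e (a : A ⧸ f.ker) = f a := fun a => rfl
  have hcont : Continuous e := by
    refine continuous_quot_lift _ hc
  have hopen : IsOpenMap e := by
    intro O hO
    have : e '' O = f '' ((QuotientAddGroup.mk : A → A ⧸ f.ker) ⁻¹' O) := by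
      ext b
      constructor
      · rintro ⟨q, hq, rfl⟩
        obtain ⟨a, rfl⟩ := QuotientAddGroup.mk_surjective q
        exact ⟨a, hq, rfl⟩
      · rintro ⟨a, ha, rfl⟩
        exact ⟨_, ha, rfl⟩
    rw [this]
    exact ho _ (hO.preimage continuous_quot_mk)
  have hemb : IsInducing e := 
    (IsOpenEmbedding.of_continuous_injective_isOpenMap hcont e.injective hopen).isInducing
  obtain ⟨hT2, U, hU, hsym, hbasis⟩ := hB
  refine ⟨T2Space.of_injective_continuous e.injective hcont, e ⁻¹' U, ?_, ?_, ?_⟩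
  · exact hcont.continuousAt.preimage_mem_nhds (by simpa using hU)
  · intro x hx
    show e (-x) ∈ U
    rw [map_neg]; exact hsym _ hx
  · have h1 := hbasis.comap e
    rw [← map_zero e, ← hemb.nhds_eq_comap] at h1
    have h2 : ∀ n, e ⁻¹' divN n U = divN n (e ⁻¹' U) := by
      intro n
      ext x
      simp only [divN, mem_preimage, mem_ofPred_eq, map_nsmul]
    simpa only [h2] using h1

/-! ### The example -/

/-- The compact group. -/
abbrev K : Type := ℕ × ℕ → ZMod 4

/-- The Banach space. -/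
abbrev L : Type := lp (fun _ : ℕ × ℕ => ℝ) ⊤

/-- The minimal group: `x` with `2x` finitely supported. -/
def N : AddSubgroup K where
  carrier := {x | {q | 2 * x q ≠ 0}.Finite}
  zero_mem' := by simp
  add_mem' := by
    intro x y hx hy
    refine (Set.Finite.union hx hy).subset ?_
    intro q hq
    by_contra hcon
    rw [mem_union, not_or] at hcon
    obtain ⟨h1, h2⟩ := hcon
    have h1' : 2 * x q = 0 := by by_contra h; exact h1 h
    have h2' : 2 * y q = 0 := by by_contra h; exact h2 h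
    apply hq
    show 2 * (x q + y q) = 0
    rw [mul_add, h1', h2', add_zero]
  neg_mem' := by
    intro x hx
    refine Set.Finite.subset hx ?_
    intro q hq h
    apply hq
    show 2 * (-x q) = 0
    rw [mul_neg, h, neg_zero]

/-- The UFSS group. -/
def E : AddSubgroup L where
  carrier := {f | ∀ q : ℕ × ℕ, ∃ z : ℤ, (f : ℕ × ℕ → ℝ) q * (q.2 + 1) = z}
  zero_mem' := fun q => ⟨0, by simp⟩
  add_mem' := by
    intro f g hf hg q
    obtain ⟨z, hz⟩ := hf q
    obtain ⟨w, hw⟩ := hg q
    exact ⟨z + w, by rw [lp.coeFn_add, Pi.add_apply, add_mul, hz, hw]; push_cast; ring⟩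
  neg_mem' := by
    intro f hf q
    obtain ⟨z, hz⟩ := hf q
    exact ⟨-z, by rw [lp.coeFn_neg, Pi.neg_apply, neg_mul, hz]; push_cast; ring⟩

/-- The almost minimal group. -/
abbrev G : Type := N × E

/-- The closed subgroup. -/
def H : AddSubgroup G where
  carrier := {g | ∀ j i : ℕ, ∃ z : ℤ, ((g.2 : L) : ℕ × ℕ → ℝ) (j, i) * (i + 1) = z ∧
    2 * (g.1 : K) (j, i) - 2 * (g.1 : K) (j, i + 1) = 2 * (z : ZMod 4)}
  zero_mem' := fun j i => ⟨0, by simp, by simp⟩
  add_mem' := by
    intro f g hf hg j i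
    obtain ⟨z, hz, hz'⟩ := hf j i
    obtain ⟨w, hw, hw'⟩ := hg j i
    refine ⟨z + w, ?_, ?_⟩
    · rw [Prod.snd_add, AddSubgroup.coe_add, lp.coeFn_add, Pi.add_apply, add_mul, hz, hw]
      push_cast; ring
    · rw [Prod.fst_add, AddSubgroup.coe_add, Pi.add_apply, Pi.add_apply]
      push_cast
      rw [mul_add (2 : ZMod 4) (z : ZMod 4), ← hz', ← hw']
      ring
  neg_mem' := by
    intro f hf j i
    obtain ⟨z, hz, hz'⟩ := hf j i
    refine ⟨-z, ?_, ?_⟩
    · rw [Prod.snd_neg, AddSubgroup.coe_neg, lp.coeFn_neg, Pi.neg_apply, neg_mul, hz]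
      push_cast; ring
    · rw [Prod.fst_neg, AddSubgroup.coe_neg, Pi.neg_apply, Pi.neg_apply]
      push_cast
      rw [mul_neg (2 : ZMod 4) (z : ZMod 4), ← hz']
      ring

theorem continuous_coord (q : ℕ × ℕ) : Continuous (fun f : L => (f : ℕ × ℕ → ℝ) q) := by
  have : LipschitzWith 1 (fun f : L => (f : ℕ × ℕ → ℝ) q) := by
    apply LipschitzWith.of_dist_le_mul
    intro f g
    rw [NNReal.coe_one, one_mul, dist_eq_norm, dist_eq_norm]
    have := lp.norm_apply_le_norm (p := ⊤) ENNReal.top_ne_zero (f - g) q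
    rwa [lp.coeFn_sub, Pi.sub_apply] at this
  exact this.continuous

theorem isClosed_H : IsClosed (H : Set G) := by
  have hset : IsClosed {p : ℝ × ZMod 4 | ∃ z : ℤ, p.1 = z ∧ p.2 = 2 * (z : ZMod 4)} := by
    have : {p : ℝ × ZMod 4 | ∃ z : ℤ, p.1 = z ∧ p.2 = 2 * (z : ZMod 4)} =
        ⋃ w : ZMod 4, ((fun z : ℤ => (z : ℝ)) '' {z : ℤ | w = 2 * (z : ZMod 4)}) ×ˢ {w} := by
      ext ⟨r, w⟩
      simp only [mem_ofPred_eq, mem_iUnion, mem_prod, mem_image, mem_singleton_iff]
      constructor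
      · rintro ⟨z, h1, h2⟩
        exact ⟨w, ⟨z, h2, h1.symm⟩, rfl⟩
      · rintro ⟨w', ⟨z, h1, h2⟩, h3⟩
        exact ⟨z, h2.symm, h3.trans h1⟩
    rw [this]
    refine isClosed_iUnion_of_finite fun w => ?_
    exact (Int.isClosedEmbedding_coe_real.isClosedMap _ (isClosed_discrete _)).prod
      isClosed_singleton
  have h1 : (H : Set G) = ⋂ j : ℕ, ⋂ i : ℕ,
      (fun g : G => (((g.2 : L) : ℕ × ℕ → ℝ) (j, i) * (i + 1),
        2 * (g.1 : K) (j, i) - 2 * (g.1 : K) (j, i + 1))) ⁻¹'
      {p : ℝ × ZMod 4 | ∃ z : ℤ, p.1 = z ∧ p.2 = 2 * (z : ZMod 4)} := by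
    ext g
    simp only [mem_iInter]
    rfl
  rw [h1]
  refine isClosed_iInter fun j => isClosed_iInter fun i => hset.preimage ?_
  refine Continuous.prodMk ?_ ?_
  · have := (continuous_coord (j, i)).comp (continuous_subtype_val.comp
      (continuous_snd : Continuous (fun g : G => g.2)))
    exact this.mul continuous_const
  · have h2 : ∀ q : ℕ × ℕ, Continuous (fun g : G => (g.1 : K) q) := fun q =>
      (continuous_apply q).comp (continuous_subtype_val.comp continuous_fst)
    exact (continuous_const.mul (h2 _)).sub (continuous_const.mul (h2 _))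

theorem almostMinimal_G : AlmostMinimal G := by
  refine ⟨(AddMonoidHom.snd N E).ker, ?_, ?_, ?_⟩
  · have : ((AddMonoidHom.snd N E).ker : Set G) = (fun g : G => g.2) ⁻¹' {0} := by
      ext g; rfl
    rw [this]
    exact isClosed_singleton.preimage continuous_snd
  · let h : (AddMonoidHom.snd N E).ker ≃ₜ N :=
      { toFun := fun g => g.1.1
        invFun := fun x => ⟨(x, 0), rfl⟩
        left_inv := by
          rintro ⟨⟨x, f⟩, hf⟩
          have : f = 0 := hf
          subst this
          rfl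
        right_inv := fun x => rfl
        continuous_toFun := continuous_fst.comp continuous_subtype_val
        continuous_invFun := by
          refine Continuous.subtype_mk ?_ _
          exact continuous_id.prodMk continuous_const }
    let φ : (AddMonoidHom.snd N E).ker →+ K :=
      N.subtype.comp ((AddMonoidHom.fst N E).comp (AddMonoidHom.snd N E).ker.subtype)
    refine minimal_of_socle φ ?_ ?_
    · exact IsEmbedding.subtypeVal.comp h.isEmbedding
    · intro x hx
      have hxN : x ∈ N := by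
        show {q | 2 * x q ≠ 0}.Finite
        have : {q | 2 * x q ≠ 0} = ∅ := by
          ext q; simp [hx q]
        rw [this]; exact finite_empty
      exact ⟨⟨(⟨x, hxN⟩, 0), rfl⟩, rfl⟩
  · exact ufss_quot (AddMonoidHom.snd N E) continuous_snd isOpenMap_snd
      (fun e => ⟨(0, e), rfl⟩) (ufss_of_normed E)

/-- The comparison map with a precompact group. -/
noncomputable def Psi : G →+ K × ((ℕ × ℕ) × ℕ → AddCircle (1 : ℝ)) where
  toFun g := ((g.1 : K), fun p =>
    ((((g.2 : L) : ℕ × ℕ → ℝ) p.1 * (p.1.2 + 1) / 2 ^ p.2 : ℝ) : AddCircle (1 : ℝ)))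
  map_zero' := by
    ext p
    · simp
    · simp
  map_add' := by
    intro g h
    ext p
    · simp
    · have h1 : (((g + h).2 : L) : ℕ × ℕ → ℝ) p.1 =
          ((g.2 : L) : ℕ × ℕ → ℝ) p.1 + ((h.2 : L) : ℕ × ℕ → ℝ) p.1 := rfl
      show ((((((g + h).2 : L) : ℕ × ℕ → ℝ) p.1 * (p.1.2 + 1) / 2 ^ p.2 : ℝ)) :
          AddCircle (1 : ℝ)) =
        (((((g.2 : L) : ℕ × ℕ → ℝ) p.1 * (p.1.2 + 1) / 2 ^ p.2 : ℝ)) : AddCircle (1 : ℝ)) +
        (((((h.2 : L) : ℕ × ℕ → ℝ) p.1 * (p.1.2 + 1) / 2 ^ p.2 : ℝ)) : AddCircle (1 : ℝ))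
      rw [h1, ← AddCircle.coe_add]
      congr 1
      ring

theorem continuous_Psi : Continuous Psi := by
  refine Continuous.prodMk (continuous_subtype_val.comp continuous_fst) ?_
  refine continuous_pi fun p => ?_
  have h1 := (continuous_coord p.1).comp (continuous_subtype_val.comp
      (continuous_snd : Continuous (fun g : G => g.2)))
  exact (AddCircle.continuous_mk' 1).comp ((h1.mul continuous_const).div_const _)

theorem Psi_injective : Function.Injective Psi := by
  rw [injective_iff_map_eq_zero]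
  intro g hg
  have h1 : (g.1 : K) = 0 := congrArg Prod.fst hg
  have h2 : ∀ p : (ℕ × ℕ) × ℕ,
      ((((g.2 : L) : ℕ × ℕ → ℝ) p.1 * (p.1.2 + 1) / 2 ^ p.2 : ℝ) : AddCircle (1 : ℝ)) = 0 :=
    fun p => congrFun (congrArg Prod.snd hg) p
  have h3 : g.2 = 0 := by
    apply Subtype.ext
    apply lp.ext
    funext q
    show ((g.2 : L) : ℕ × ℕ → ℝ) q = 0
    obtain ⟨z, hz⟩ := g.2.2 q
    have hz0 : z = 0 := by
      by_contra hne
      -- take a power of 2 larger than |z|
      obtain ⟨n, hn⟩ : ∃ n : ℕ, z.natAbs < 2 ^ n := ⟨z.natAbs, Nat.lt_two_pow_self⟩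
      have h4 := h2 (q, n)
      simp only at h4
      rw [hz, AddCircle.coe_eq_zero_iff] at h4
      obtain ⟨m, hm⟩ := h4
      rw [zsmul_one, eq_div_iff (by positivity)] at hm
      have hm' : m * 2 ^ n = z := by exact_mod_cast hm
      have h5 : (2 ^ n : ℤ) ∣ z := ⟨m, by rw [← hm']; ring⟩
      have h6 := Int.natAbs_dvd_natAbs.2 h5
      have h7 : (2 ^ n : ℤ).natAbs = 2 ^ n := by
        rw [Int.natAbs_pow]; rfl
      rw [h7] at h6
      have := Nat.le_of_dvd (by omega) h6
      omega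
    rw [hz0, Int.cast_zero] at hz
    have : ((q.2 : ℝ) + 1) ≠ 0 := by positivity
    rcases mul_eq_zero.1 hz with h | h
    · exact h
    · exact absurd h this
  exact Prod.ext (Subtype.ext h1) h3

theorem Psi_tendsto (g : G) : Tendsto (fun n : ℕ => Psi ((2 ^ n) • g)) atTop (𝓝 0) := by
  have h4 : ∀ z : ZMod 4, (4 : ZMod 4) * z = 0 := by decide
  refine Prod.tendsto_iff _ _ |>.2 ⟨?_, ?_⟩
  · rw [tendsto_pi_nhds]
    intro q
    refine tendsto_const_nhds.congr' ?_
    filter_upwards [eventually_ge_atTop 2] with n hn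
    obtain ⟨k, rfl⟩ := Nat.exists_eq_add_of_le hn
    show (0 : ZMod 4) = (((2 ^ (2 + k)) • g).1 : K) q
    rw [Prod.smul_fst, AddSubgroup.coe_nsmul, Pi.smul_apply, nsmul_eq_mul]
    have : ((2 ^ (2 + k) : ℕ) : ZMod 4) = 4 * 2 ^ k := by
      push_cast; rw [pow_add]; norm_num
    rw [this, mul_assoc, h4]
  · rw [tendsto_pi_nhds]
    rintro ⟨q, m⟩
    obtain ⟨z, hz⟩ := g.2.2 q
    refine tendsto_const_nhds.congr' ?_
    filter_upwards [eventually_ge_atTop m] with n hn
    obtain ⟨k, rfl⟩ := Nat.exists_eq_add_of_le hn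
    show (0 : AddCircle (1 : ℝ)) =
      ((((((2 ^ (m + k)) • g).2 : L) : ℕ × ℕ → ℝ) q * (q.2 + 1) / 2 ^ m : ℝ) : AddCircle (1 : ℝ))
    have h5 : (((((2 ^ (m + k)) • g).2 : L) : ℕ × ℕ → ℝ) q * (q.2 + 1) / 2 ^ m : ℝ) =
        ((2 ^ k * z : ℤ) : ℝ) := by
      have h6 : ((((2 ^ (m + k)) • g).2 : L) : ℕ × ℕ → ℝ) q =
          (2 : ℝ) ^ (m + k) * ((g.2 : L) : ℕ × ℕ → ℝ) q := by
        rw [Prod.smul_snd, AddSubgroup.coe_nsmul, ← Nat.cast_smul_eq_nsmul ℝ, lp.coeFn_smul,
          Pi.smul_apply, smul_eq_mul]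
        push_cast; ring
      rw [h6, mul_assoc, hz, pow_add]
      push_cast
      field_simp
    rw [h5]
    symm
    rw [AddCircle.coe_eq_zero_iff]
    exact ⟨2 ^ k * z, by rw [zsmul_one]⟩

theorem not_almostMinimal_H : ¬ AlmostMinimal H := by
  classical
  rintro ⟨M, hMc, hMmin, -, U, hU, -, hbasis⟩
  -- Step A
  have hA : ∀ h ∈ M, ((h : H) : G).2 = 0 := by
    intro h hh
    let m : M := ⟨h, hh⟩
    let Φ : M →+ K × ((ℕ × ℕ) × ℕ → AddCircle (1 : ℝ)) := (Psi.comp H.subtype).comp M.subtype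
    have hΦ : Continuous Φ := continuous_Psi.comp (continuous_subtype_val.comp
      continuous_subtype_val)
    have hΦi : Function.Injective Φ := Psi_injective.comp
      (Subtype.val_injective.comp Subtype.val_injective)
    have hind : IsInducing Φ := hMmin.inducing Φ hΦ hΦi
    have ht : Tendsto (fun n : ℕ => (2 ^ n) • m) atTop (𝓝 0) := by
      rw [hind.tendsto_nhds_iff, map_zero]
      exact Psi_tendsto (h : G)
    have ht2 : Tendsto (fun n : ℕ => ‖((((2 ^ n) • m : M) : H) : G).2‖) atTop (𝓝 0) := by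
      have hc : Continuous (fun x : M => ‖((x : H) : G).2‖) :=
        (continuous_snd.comp (continuous_subtype_val.comp continuous_subtype_val)).norm
      have h : Tendsto (fun n : ℕ => ‖((((2 ^ n) • m : M) : H) : G).2‖) atTop
          (𝓝 ‖(((0 : M) : H) : G).2‖) := (hc.tendsto 0).comp ht
      have h0 : ‖(((0 : M) : H) : G).2‖ = 0 := norm_zero (E := E)
      rwa [h0] at h
    have h3 : ∀ n : ℕ, ‖((((2 ^ n) • m : M) : H) : G).2‖ = 2 ^ n * ‖((h : H) : G).2‖ := by
      intro n
      have h31 : ((((2 ^ n) • m : M) : H) : G).2 = (2 ^ n) • ((h : H) : G).2 := rfl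
      rw [h31]
      have h32 : ‖((2 ^ n) • ((h : H) : G).2 : E)‖ = ‖((2 ^ n) • ((h : G).2 : L) : L)‖ := rfl
      rw [h32, ← Nat.cast_smul_eq_nsmul ℝ, norm_smul, Real.norm_natCast]
      push_cast
      rfl
    by_contra hne
    have hpos : 0 < ‖((h : H) : G).2‖ := norm_pos_iff.2 hne
    obtain ⟨n, hn⟩ := (ht2.eventually (gt_mem_nhds hpos)).exists
    rw [h3] at hn
    have : (1 : ℝ) ≤ 2 ^ n := one_le_pow₀ (by norm_num)
    nlinarith
  -- Step B
  have hB : ∀ h ∈ M, ∀ j i, 2 * (((h : H) : G).1 : K) (j, i) = 0 := by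
    intro h hh j i
    have h0 := hA h hh
    have h1 : ∀ i, 2 * (((h : H) : G).1 : K) (j, i) = 2 * (((h : H) : G).1 : K) (j, i + 1) := by
      intro i
      obtain ⟨z, hz, hz'⟩ := h.2 j i
      rw [h0] at hz
      have hz0 : z = 0 := by
        have : (0 : ℝ) = z := by simpa using hz
        exact_mod_cast this.symm
      rw [hz0] at hz'
      simpa [sub_eq_zero] using hz'
    have h2 : ∀ k, 2 * (((h : H) : G).1 : K) (j, i) = 2 * (((h : H) : G).1 : K) (j, i + k) := by
      intro k
      induction k with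
      | zero => rfl
      | succ k ih => rw [ih, h1 (i + k)]; rfl
    by_contra hne
    have hfin : {q | 2 * (((h : H) : G).1 : K) q ≠ 0}.Finite := ((h : H) : G).1.2
    refine infinite_of_injective_forall_mem (f := fun k : ℕ => (j, i + k)) ?_ ?_ hfin
    · intro a b hab
      simpa using hab
    · intro k
      show 2 * (((h : H) : G).1 : K) (j, i + k) ≠ 0
      rw [← h2 k]; exact hne
  -- Step C
  have hU' : (QuotientAddGroup.mk : H → H ⧸ M) ⁻¹' U ∈ 𝓝 (0 : H) := by
    have : Continuous (QuotientAddGroup.mk : H → H ⧸ M) := continuous_quot_mk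
    exact this.continuousAt.preimage_mem_nhds hU
  rw [nhds_subtype_eq_comap, mem_comap] at hU'
  obtain ⟨T, hT, hTU⟩ := hU'
  rw [ZeroMemClass.coe_zero] at hT
  have hT' : T ∈ 𝓝 ((0 : N), (0 : E)) := hT
  rw [nhds_prod_eq, mem_prod_iff] at hT'
  obtain ⟨T1, hT1, T2, hT2, hT12⟩ := hT'
  rw [nhds_subtype_eq_comap, mem_comap] at hT1
  obtain ⟨T1', hT1', hT1s⟩ := hT1
  rw [ZeroMemClass.coe_zero, nhds_pi, Filter.mem_pi] at hT1'
  obtain ⟨F, hF, w, hw, hwT⟩ := hT1'
  rw [Metric.mem_nhds_iff] at hT2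
  obtain ⟨ε, hε, hball⟩ := hT2
  have hbox : ∀ g : H, (∀ q ∈ F, ((g : G).1 : K) q = 0) → ‖(g : G).2‖ < ε →
      (QuotientAddGroup.mk g : H ⧸ M) ∈ U := by
    intro g h1 h2
    apply hTU
    show (g : G) ∈ T
    apply hT12
    refine ⟨?_, ?_⟩
    · apply hT1s
      apply hwT
      intro q hq
      show ((g : G).1 : K) q ∈ w q
      rw [h1 q hq]
      exact mem_of_mem_nhds (hw q)
    · apply hball
      rw [Metric.mem_ball, dist_zero_right]
      exact h2
  -- fresh row
  obtain ⟨j0, hj0⟩ : ∃ j0 : ℕ, ∀ i, (j0, i) ∉ F := by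
    obtain ⟨j0, hj0⟩ := (hF.image Prod.fst).exists_notMem
    exact ⟨j0, fun i hi => hj0 ⟨(j0, i), hi, rfl⟩⟩
  -- the neighbourhood
  have hV : {g : H | 2 * ((g : G).1 : K) (j0, 0) = 0} ∈ 𝓝 (0 : H) := by
    have hc : Continuous (fun g : H => 2 * ((g : G).1 : K) (j0, 0)) := by
      have h2 : Continuous (fun g : H => ((g : G).1 : K) (j0, 0)) :=
        (continuous_apply (j0, 0)).comp (continuous_subtype_val.comp
          (continuous_fst.comp continuous_subtype_val))
      exact continuous_const.mul h2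
    have := (isOpen_discrete ({0} : Set (ZMod 4))).preimage hc
    exact this.mem_nhds (by
      show 2 * (((0 : H) : G).1 : K) (j0, 0) = 0
      simp)
  have hW : (QuotientAddGroup.mk : H → H ⧸ M) '' {g : H | 2 * ((g : G).1 : K) (j0, 0) = 0} ∈
      𝓝 (0 : H ⧸ M) := by
    have := (QuotientAddGroup.isOpenMap_coe (N := M)).image_mem_nhds hV
    exact this
  obtain ⟨n, hn1, hn⟩ := hbasis.mem_iff.1 hW
  -- choose `k`
  obtain ⟨k, hk⟩ := exists_nat_one_div_lt (show (0 : ℝ) < ε / n by
    have : (0 : ℝ) < n := by exact_mod_cast hn1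
    positivity)
  let x : K := fun q => if q.1 = j0 ∧ q.2 ≤ k then 1 else 0
  have hxN : x ∈ N := by
    show {q | 2 * x q ≠ 0}.Finite
    refine ((finite_Iic k).image (fun i => (j0, i))).subset ?_
    rintro ⟨j, i⟩ hq
    by_cases hc : j = j0 ∧ i ≤ k
    · exact ⟨i, hc.2, by rw [hc.1]⟩
    · exact absurd (by simp [x, hc]) hq
  let f : L := lp.single ⊤ (j0, k) (1 / ((k : ℝ) + 1))
  have hf : ∀ q, (f : ℕ × ℕ → ℝ) q = if q = (j0, k) then 1 / ((k : ℝ) + 1) else 0 := by
    intro q
    by_cases hq : q = (j0, k)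
    · rw [if_pos hq, hq]; exact lp.single_apply_self _ _ _
    · rw [if_neg hq]; exact lp.single_apply_ne _ _ _ hq
  have hfn : ‖f‖ = 1 / ((k : ℝ) + 1) := by
    rw [lp.norm_single (by simp), Real.norm_of_nonneg (by positivity)]
  have hfint : ∀ q : ℕ × ℕ, (f : ℕ × ℕ → ℝ) q * (q.2 + 1) =
      ((if q = (j0, k) then 1 else 0 : ℤ) : ℝ) := by
    intro q
    rw [hf q]
    by_cases hq : q = (j0, k)
    · rw [if_pos hq, if_pos hq, hq]
      simp only [Int.cast_one]
      field_simp
    · rw [if_neg hq, if_neg hq]; simp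
  have hfE : f ∈ E := fun q => ⟨_, hfint q⟩
  have hgH : ((⟨x, hxN⟩, ⟨f, hfE⟩) : G) ∈ H := by
    intro j i
    refine ⟨_, hfint (j, i), ?_⟩
    show 2 * x (j, i) - 2 * x (j, i + 1) = _
    by_cases hj : j = j0
    · subst hj
      rcases lt_trichotomy i k with h | h | h
      · have h1 : x (j, i) = 1 := by simp [x, h.le]
        have h2 : x (j, i + 1) = 1 := by simp [x, Nat.succ_le_of_lt h]
        have h3 : ¬ ((j, i) = (j, k)) := by
          intro h'; simp at h'; omega
        rw [h1, h2, if_neg h3]; simp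
      · subst h
        have h1 : x (j, i) = 1 := by simp [x]
        have h2 : x (j, i + 1) = 0 := by simp [x]
        rw [h1, h2, if_pos rfl]; simp
      · have h1 : x (j, i) = 0 := by simp [x, h]
        have h2 : x (j, i + 1) = 0 := by simp [x]; omega
        have h3 : ¬ ((j, i) = (j, k)) := by
          intro h'; simp at h'; omega
        rw [h1, h2, if_neg h3]; simp
    · have h1 : x (j, i) = 0 := by simp [x, hj]
      have h2 : x (j, i + 1) = 0 := by simp [x, hj]
      have h3 : ¬ ((j, i) = (j0, k)) := by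
        intro h'; simp at h'; exact hj h'.1
      rw [h1, h2, if_neg h3]; simp
  let g : H := ⟨(⟨x, hxN⟩, ⟨f, hfE⟩), hgH⟩
  have hg : (QuotientAddGroup.mk g : H ⧸ M) ∈ divN n U := by
    intro l hl1 hln
    have : l • (QuotientAddGroup.mk g : H ⧸ M) = QuotientAddGroup.mk (l • g) := rfl
    rw [this]
    apply hbox
    · intro q hq
      have h1 : ((((l • g : H) : G)).1 : K) q = l • x q := rfl
      rw [h1]
      have h2 : x q = 0 := by
        have : ¬ (q.1 = j0 ∧ q.2 ≤ k) := by
          rintro ⟨h3, -⟩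
          apply hj0 q.2
          rw [← h3]; exact hq
        simp [x, this]
      rw [h2, smul_zero]
    · have h1 : ‖(((l • g : H) : G)).2‖ = ‖l • f‖ := rfl
      rw [h1, ← Nat.cast_smul_eq_nsmul ℝ, norm_smul, Real.norm_natCast, hfn]
      have hn0 : (0 : ℝ) < n := by exact_mod_cast hn1
      rw [lt_div_iff₀ hn0] at hk
      have hln' : (l : ℝ) ≤ n := by exact_mod_cast hln
      have h5 : (0 : ℝ) < 1 / ((k : ℝ) + 1) := by positivity
      nlinarith
  obtain ⟨v, hv, hvg⟩ := hn hg
  have h1 : -v + g ∈ M := QuotientAddGroup.eq.1 hvg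
  have h2 := hB _ h1 j0 0
  have h3 : (((-v + g : H) : G).1 : K) (j0, 0) = - ((v : G).1 : K) (j0, 0) + x (j0, 0) := rfl
  have h4 : x (j0, 0) = 1 := by simp [x]
  have hv' : 2 * ((v : G).1 : K) (j0, 0) = 0 := hv
  rw [h3, h4, mul_add, mul_neg, hv'] at h2
  exact absurd h2 (by decide)

/-- There is an almost minimal (Hausdorff) abelian topological group with a closed subgroup which is
not almost minimal. -/
theorem result : ∃ (G : Type) (_ : AddCommGroup G) (_ : TopologicalSpace G)
    (_ : IsTopologicalAddGroup G) (_ : T2Space G) (H : AddSubgroup G),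
    AlmostMinimal G ∧ IsClosed (H : Set G) ∧ ¬ AlmostMinimal H :=
  ⟨G, inferInstance, inferInstance, inferInstance, inferInstance, H, almostMinimal_G, isClosed_H,
    not_almostMinimal_H⟩

end Pool.Agent.Results.MP_e403d1_gt.ClosedSubgroup
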